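import Pool.Agent.H95.AD.TargetsU
import Pool.Agent.H25.CN.THA
import Pool.Agent.H26.CN.THE

/-!
MP_347b49_nt, board adu_modules, row THX.
-/

set_option autoImplicit false

open MeasureTheory Set Filter
open scoped Real

namespace Pool.Agent.H56.AD

open Pool.Agent.H31.CN Pool.Agent.H95.AD Pool.Agent.H25.CN

/-- the real part of the Gaussian off the axes -/
noncomputable def Cc (u w b : ℝ) (x : ℕ × ℕ) : ℝ :=
  if 1 ≤ x.1 ∧ 1 ≤ x.2 then
    Real.cos (2 * π * b * x.1 * x.2) *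
      Real.exp (-(π * ((x.1 : ℝ) ^ 2 * u⁻¹ + (x.2 : ℝ) ^ 2 * w))) else 0

theorem Cc_abs (u w b : ℝ) (x : ℕ × ℕ) : |Cc u w b x| ≤
    Real.exp (-(π * (x.1 : ℝ) ^ 2 * u⁻¹)) * Real.exp (-(π * (x.2 : ℝ) ^ 2 * w)) := by
  unfold Cc
  rw [← Real.exp_add]
  split_ifs
  · rw [abs_mul, abs_of_pos (Real.exp_pos _)]
    refine (mul_le_of_le_one_left (Real.exp_pos _).le (Real.abs_cos_le_one _)).trans (le_of_eq ?_)
    congr 1
    ring
  · rw [abs_zero]
    exact (Real.exp_pos _).le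

theorem Cc_sum (u w b : ℝ) (hu : 0 < u) (hw : 0 < w) : Summable (Cc u w b) := by
  refine Summable.of_norm_bounded ((sN u⁻¹ (inv_pos.2 hu)).mul_of_nonneg (sN w hw)
    (fun _ => (Real.exp_pos _).le) (fun _ => (Real.exp_pos _).le)) fun x => ?_
  rw [Real.norm_eq_abs]
  exact Cc_abs u w b x

theorem Cc_sumZ (u w b : ℝ) (hu : 0 < u) (hw : 0 < w) :
    Summable (fun p : ℤ × ℤ => Cc u w b (p.1.natAbs, p.2.natAbs)) := by
  refine Summable.of_norm_bounded (Gg_sum u w hu hw) fun p => ?_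
  rw [Real.norm_eq_abs]
  refine (Cc_abs u w b _).trans (le_of_eq ?_)
  unfold Gg
  simp only
  rw [natAbs_cast_sq, natAbs_cast_sq]

theorem Cc_tsumZ (u w b : ℝ) (hu : 0 < u) (hw : 0 < w) :
    ∑' p : ℤ × ℤ, Cc u w b (p.1.natAbs, p.2.natAbs) = 4 * ∑' x : ℕ × ℕ, Cc u w b x := by
  have hs := Cc_sum u w b hu hw
  rw [(Cc_sumZ u w b hu hw).tsum_prod, hs.tsum_prod]
  have h1 : ∀ x : ℤ, ∑' y : ℤ, Cc u w b (x.natAbs, y.natAbs) =
      2 * ∑' m : ℕ, Cc u w b (x.natAbs, m) := by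
    intro x
    refine (natAbs_sum (fun m => Cc u w b (x.natAbs, m)) (hs.prod_factor x.natAbs) ?_).tsum_eq
    unfold Cc
    simp
  simp only [h1]
  rw [tsum_mul_left, (natAbs_sum (fun n => ∑' m : ℕ, Cc u w b (n, m)) hs.prod ?_).tsum_eq]
  · ring
  · have h2 : ∀ m : ℕ, Cc u w b (0, m) = 0 := by
      intro m
      unfold Cc
      simp
    simp only [h2, tsum_zero]

/-- the shifted sum -/
theorem Cc_shift (u w b : ℝ) :
    ∑' x : ℕ × ℕ, Cc u w b x = ∑' x : ℕ × ℕ, Cc u w b (x.1 + 1, x.2 + 1) := by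
  have hinj : Function.Injective (fun x : ℕ × ℕ => (x.1 + 1, x.2 + 1)) := by
    rintro ⟨a, c⟩ ⟨d, e⟩ h
    simp only [Prod.mk.injEq, Nat.add_right_cancel_iff] at h
    rw [h.1, h.2]
  refine (hinj.tsum_eq (f := Cc u w b) ?_).symm
  rintro ⟨a, c⟩ hx
  rw [Function.mem_support] at hx
  unfold Cc at hx
  by_cases h : 1 ≤ a ∧ 1 ≤ c
  · refine ⟨(a - 1, c - 1), ?_⟩
    simp only [Prod.mk.injEq]
    omega
  · exact absurd (if_neg h) hx

/-- the real part -/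
theorem re_Gb (u w b : ℝ) (p : ℤ × ℤ) :
    (Gb u w b p).re = Mm u w p + Cc u w b (p.1.natAbs, p.2.natAbs) := by
  have h0 : (Gb u w b p).re = Gg u w p * Real.cos (2 * π * b * p.1 * p.2) := by
    unfold Gb
    rw [Complex.re_ofReal_mul]
    congr 1
    have h1 : (-(2 * π * (b * p.2) * p.1) * Complex.I : ℂ) =
        ((-(2 * π * b * p.1 * p.2) : ℝ) : ℂ) * Complex.I := by
      push_cast
      ring
    rw [h1, Complex.exp_ofReal_mul_I_re, Real.cos_neg]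
  rw [h0]
  by_cases h2 : p.2 = 0
  · unfold Mm Cc Gg
    rw [h2]
    simp
  · by_cases h1 : p.1 = 0
    · unfold Mm Cc Gg
      rw [h1]
      simp [h2]
    · have h4 : 1 ≤ p.1.natAbs := Int.natAbs_pos.2 h1
      have h5 : 1 ≤ p.2.natAbs := Int.natAbs_pos.2 h2
      have h3 : Mm u w p = 0 := by
        unfold Mm
        simp [h1, h2]
      rw [h3, zero_add]
      unfold Cc
      rw [if_pos ⟨h4, h5⟩]
      simp only
      rw [mul_comm]
      have h6 : Gg u w p = Real.exp (-(π * (((p.1.natAbs : ℕ) : ℝ) ^ 2 * u⁻¹ +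
          ((p.2.natAbs : ℕ) : ℝ) ^ 2 * w))) := by
        unfold Gg
        rw [natAbs_cast_sq, natAbs_cast_sq, ← Real.exp_add]
        congr 1
        ring
      rw [h6]
      congr 1
      rw [Nat.cast_natAbs, Nat.cast_natAbs, Int.cast_abs, Int.cast_abs]
      rw [← Real.cos_abs, ← Real.cos_abs (2 * π * b * |(p.1 : ℝ)| * |(p.2 : ℝ)|)]
      congr 1
      simp only [abs_mul, abs_abs]

theorem pf_THX (hTH1 : T_TH1) : T_THX := by
  intro A B Δ t hA hΔ ht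
  have hs : 0 < Real.sqrt Δ := Real.sqrt_pos.2 hΔ
  obtain ⟨u, hu⟩ : ∃ u : ℝ, u = 2 * t * A / Real.sqrt Δ := ⟨_, rfl⟩
  obtain ⟨w, hw⟩ : ∃ w : ℝ, w = t * Real.sqrt Δ / (2 * A) := ⟨_, rfl⟩
  have hu0 : 0 < u := by rw [hu]; positivity
  have hw0 : 0 < w := by rw [hw]; positivity
  have hui : Real.sqrt Δ / (2 * t * A) = u⁻¹ := by
    rw [hu, inv_div]
  rw [hui, ← hu, ← hw]
  constructor
  · have h1 := (sN1 u⁻¹ (inv_pos.2 hu0)).mul_of_nonneg (sN1 w hw0)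
      (fun _ => (Real.exp_pos _).le) (fun _ => (Real.exp_pos _).le)
    refine h1.congr fun x => ?_
    rw [← Real.exp_add]
    congr 1
    ring
  have hsu : Real.sqrt u⁻¹ = (Real.sqrt u)⁻¹ := Real.sqrt_inv u
  rw [hsu]
  have hsu0 : 0 < Real.sqrt u := Real.sqrt_pos.2 hu0
  obtain ⟨b, hb⟩ : ∃ b : ℝ, b = B / (2 * A) := ⟨_, rfl⟩
  have hB : B = 2 * A * b := by
    rw [hb]
    field_simp
  have h1 := Th_eq Pool.Agent.H26.CN.pf_THE A Δ t b hA hΔ ht u w hu hw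
  rw [← hB] at h1
  have h2 : Th A B Δ t = (Real.sqrt u)⁻¹ * ∑' p : ℤ × ℤ, (Gb u w b p).re := by
    have h3 := congrArg Complex.re h1
    rw [Complex.ofReal_re, Complex.re_ofReal_mul, Complex.re_tsum (Gb_sum u w b hu0 hw0)] at h3
    exact h3
  have h4 : ∑' p : ℤ × ℤ, (Gb u w b p).re = (th1 u⁻¹ + (th1 w - 1)) +
      4 * ∑' x : ℕ × ℕ, Cc u w b (x.1 + 1, x.2 + 1) := by
    rw [tsum_congr fun p => re_Gb u w b p, (Mm_hasSum u w hu0 hw0).summable.tsum_add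
      (Cc_sumZ u w b hu0 hw0), (Mm_hasSum u w hu0 hw0).tsum_eq, Cc_tsumZ u w b hu0 hw0, Cc_shift]
  have h5 : ∑' x : ℕ × ℕ, Cc u w b (x.1 + 1, x.2 + 1) =
      ∑' x : ℕ × ℕ, Real.cos (π * (((x.1 : ℝ) + 1) * ((x.2 : ℝ) + 1)) * B / A) *
          Real.exp (-(π * (((x.1 : ℝ) + 1) ^ 2 * u⁻¹ + ((x.2 : ℝ) + 1) ^ 2 * w))) := by
    refine tsum_congr fun x => ?_
    unfold Cc
    rw [if_pos ⟨by simp, by simp⟩]
    push_cast
    congr 2
    rw [hB]
    field_simp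
  rw [h2, h4, h5, th1_feq u hu0]
  have h6 : (Real.sqrt u)⁻¹ * Real.sqrt u = 1 := inv_mul_cancel₀ hsu0.ne'
  linear_combination (th1 u) * h6

end Pool.Agent.H56.AD
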