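import Pool.Agent.H95.AD.TargetsU

/-!
MP_347b49_nt, board adu_modules, row UFN.
-/

set_option autoImplicit false

open MeasureTheory Set Filter
open scoped Real

namespace Pool.Agent.H56.AD

open Pool.Agent.H31.CN Pool.Agent.H95.AD

theorem dyad (g : ℕ → ℝ) (Y J : ℕ) :
    ∑ D ∈ (Finset.Ico Y (2 ^ J * Y)).filter (fun D => 3 < D ∧ D % 4 = 3 ∧ Squarefree D), g D =
      ∑ i ∈ Finset.range J, ∑ D ∈ (Finset.Ico (2 ^ i * Y) (2 * (2 ^ i * Y))).filter
        (fun D => 3 < D ∧ D % 4 = 3 ∧ Squarefree D), g D := by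
  induction J with
  | zero => simp
  | succ J ih =>
    rw [Finset.sum_range_succ, ← ih, Finset.sum_filter, Finset.sum_filter, Finset.sum_filter]
    have h1 : Y ≤ 2 ^ J * Y := Nat.le_mul_of_pos_left Y (by positivity)
    have h2 : 2 ^ J * Y ≤ 2 * (2 ^ J * Y) := by omega
    have h3 : 2 ^ (J + 1) * Y = 2 * (2 ^ J * Y) := by ring
    rw [h3, Finset.sum_Ico_consecutive _ h1 h2]

theorem pf_UFN (hUFM : T_UFM) (hCDB : T_CDB) : T_UFN := by
  intro P N θ η hN hθ hθ' hη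
  obtain ⟨C, hC, hCD⟩ := hCDB P N hN
  obtain ⟨γ, hγ⟩ : ∃ γ : ℝ, γ = 1 / 2 - 4 * θ := ⟨_, rfl⟩
  have hγ0 : 0 < γ := by linarith
  have hγ1 : γ < 1 / 2 := by linarith
  obtain ⟨C₁, hC₁, hU⟩ := hUFM (γ / 8) (by positivity) (by linarith)
  obtain ⟨J, hJ⟩ : ∃ J : ℕ, 1 / η < 2 ^ J := pow_unbounded_of_one_lt _ one_lt_two
  have hN' : (1 : ℝ) ≤ N := by exact_mod_cast hN
  have hsη : 0 < Real.sqrt η := Real.sqrt_pos.2 hη
  obtain ⟨K, hK⟩ : ∃ K : ℝ, K = 2 ^ J * (η + 1) := ⟨_, rfl⟩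
  have hK0 : 0 < K := by rw [hK]; positivity
  obtain ⟨K', hK'⟩ : ∃ K' : ℝ, K' = C₁ * K ^ (1 / 2 + γ / 8) * ((N : ℝ) ^ 2) ^ (γ / 8) *
      (1 + (N : ℝ) ^ 2 / Real.sqrt η) := ⟨_, rfl⟩
  have hK'0 : 0 < K' := by rw [hK']; positivity
  obtain ⟨T, hT⟩ : ∃ T : ℝ, T = (N : ℝ) ^ 4 * C ^ 4 * (J * K') := ⟨_, rfl⟩
  have hlim := (tendsto_rpow_atTop (show (0 : ℝ) < γ / 2 by positivity)).eventually_ge_atTop T
  obtain ⟨X₁, hX₁⟩ := eventually_atTop.1 hlim
  refine ⟨γ / 4, max 1 X₁, by positivity, fun X hX => ?_⟩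
  have hX1 : 1 ≤ X := (le_max_left _ _).trans hX
  have hXT : T ≤ X ^ (γ / 2) := hX₁ X ((le_max_right _ _).trans hX)
  have hX0 : 0 < X := by linarith
  obtain ⟨M, hM⟩ : ∃ M : ℝ, M = X ^ θ := ⟨_, rfl⟩
  have hM1 : 1 ≤ M := by rw [hM]; exact Real.one_le_rpow hX1 hθ.le
  have hM0 : 0 < M := by linarith
  rw [← hM]
  have hM2 : M ^ 2 = X ^ (2 * θ) := by
    rw [hM, ← Real.rpow_natCast, ← Real.rpow_mul hX0.le]
    congr 1
    push_cast
    ring
  have hS : ((SD M N).card : ℝ) ≤ N * M := by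
    have h1 : (SD M N).card ≤ N * ⌊M⌋₊ := by
      unfold SD
      refine (Finset.card_filter_le _ _).trans ?_
      rw [Nat.card_Icc]
      omega
    calc ((SD M N).card : ℝ) ≤ ((N * ⌊M⌋₊ : ℕ) : ℝ) := by exact_mod_cast h1
      _ ≤ N * M := by
        push_cast
        exact mul_le_mul_of_nonneg_left (Nat.floor_le hM0.le) (by linarith)
  have hSm : ∀ m ∈ SD M N, Squarefree m ∧ (m : ℝ) ≤ N * M := by
    intro m hm
    unfold SD at hm
    rw [Finset.mem_filter, Finset.mem_Icc] at hm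
    refine ⟨hm.2.1, ?_⟩
    calc (m : ℝ) ≤ ((N * ⌊M⌋₊ : ℕ) : ℝ) := by exact_mod_cast hm.1.2
      _ ≤ N * M := by
        push_cast
        exact mul_le_mul_of_nonneg_left (Nat.floor_le hM0.le) (by linarith)
  -- one pair
  have hpair : ∀ m₁ ∈ SD M N, ∀ m₂ ∈ SD M N,
      ∑ D ∈ (fam X).filter (fun D : ℕ => η * X ≤ D), (Uf m₁ m₂ D - Uc m₁ m₂ D) ^ 2 ≤
        J * K' * X ^ (1 / 2 + γ / 4) := by
    intro m₁ hm₁ m₂ hm₂
    obtain ⟨hq₁, hl₁⟩ := hSm m₁ hm₁
    obtain ⟨hq₂, hl₂⟩ := hSm m₂ hm₂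
    obtain ⟨Y, hY⟩ : ∃ Y : ℕ, Y = ⌈η * X⌉₊ := ⟨_, rfl⟩
    have hY1 : η * X ≤ Y := by rw [hY]; exact Nat.le_ceil _
    have hY2 : (Y : ℝ) ≤ η * X + 1 := by rw [hY]; exact (Nat.ceil_lt_add_one (by positivity)).le
    have hsub : (fam X).filter (fun D : ℕ => η * X ≤ D) ⊆
        (Finset.Ico Y (2 ^ J * Y)).filter (fun D => 3 < D ∧ D % 4 = 3 ∧ Squarefree D) := by
      intro D hD
      unfold fam at hD
      rw [Finset.mem_filter, Finset.mem_filter, Finset.mem_Icc] at hD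
      obtain ⟨⟨⟨-, h1⟩, h2⟩, h3⟩ := hD
      rw [Finset.mem_filter, Finset.mem_Ico]
      refine ⟨⟨?_, ?_⟩, h2⟩
      · rw [hY]
        exact Nat.ceil_le.2 h3
      · have h4 : (D : ℝ) ≤ X := (Nat.le_floor_iff hX0.le).1 h1
        have h5 : X < 2 ^ J * (η * X) := by
          have h6 : 1 < 2 ^ J * η := by
            rw [div_lt_iff₀ hη] at hJ
            exact hJ
          nlinarith
        have h6 : (2 : ℝ) ^ J * (η * X) ≤ 2 ^ J * Y := mul_le_mul_of_nonneg_left hY1 (by positivity)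
        have h7 : (D : ℝ) < ((2 ^ J * Y : ℕ) : ℝ) := by
          push_cast
          linarith
        exact_mod_cast h7
    refine (Finset.sum_le_sum_of_subset_of_nonneg hsub fun D _ _ => sq_nonneg _).trans ?_
    rw [dyad (fun D => (Uf m₁ m₂ D - Uc m₁ m₂ D) ^ 2) Y J]
    have hone : ∀ i ∈ Finset.range J,
        ∑ D ∈ (Finset.Ico (2 ^ i * Y) (2 * (2 ^ i * Y))).filter
          (fun D => 3 < D ∧ D % 4 = 3 ∧ Squarefree D), (Uf m₁ m₂ D - Uc m₁ m₂ D) ^ 2 ≤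
          K' * X ^ (1 / 2 + γ / 4) := by
      intro i hi
      have hi' : i ≤ J := (Finset.mem_range.1 hi).le
      obtain ⟨W, hW⟩ : ∃ W : ℕ, W = 2 ^ i * Y := ⟨_, rfl⟩
      rw [← hW]
      have hY0 : 1 ≤ Y := by
        have h1 : 0 < η * X := by positivity
        have h2 : (0 : ℝ) < Y := by linarith
        exact_mod_cast h2
      have hW1 : η * X ≤ W := by
        refine hY1.trans ?_
        rw [hW]
        have h1 : Y ≤ 2 ^ i * Y := Nat.le_mul_of_pos_left Y (by positivity)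
        exact_mod_cast h1
      have hW0 : 1 ≤ W := by
        rw [hW]
        exact Nat.mul_pos (by positivity) hY0
      have hW2 : (W : ℝ) ≤ K * X := by
        rw [hW, hK]
        push_cast
        have h1 : (2 : ℝ) ^ i ≤ 2 ^ J := pow_le_pow_right₀ one_le_two hi'
        calc (2 : ℝ) ^ i * Y ≤ 2 ^ J * (η * X + 1) :=
              mul_le_mul h1 hY2 (by positivity) (by positivity)
          _ ≤ 2 ^ J * ((η + 1) * X) := by
              refine mul_le_mul_of_nonneg_left ?_ (by positivity)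
              nlinarith
          _ = 2 ^ J * (η + 1) * X := by ring
      refine (hU m₁ m₂ W hq₁ hq₂ hW0).trans ?_
      have hmm : (m₁ : ℝ) * m₂ ≤ (N : ℝ) ^ 2 * M ^ 2 := by
        calc (m₁ : ℝ) * m₂ ≤ (N * M) * (N * M) := mul_le_mul hl₁ hl₂ (by positivity) (by positivity)
          _ = (N : ℝ) ^ 2 * M ^ 2 := by ring
      have e1 : (W : ℝ) ^ (1 / 2 + γ / 8) ≤ K ^ (1 / 2 + γ / 8) * X ^ (1 / 2 + γ / 8) := by
        rw [← Real.mul_rpow hK0.le hX0.le]
        exact Real.rpow_le_rpow (by positivity) hW2 (by positivity)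
      have e2 : ((m₁ : ℝ) * m₂) ^ (γ / 8) ≤ ((N : ℝ) ^ 2) ^ (γ / 8) * X ^ (γ / 8) := by
        refine (Real.rpow_le_rpow (by positivity) hmm (by positivity)).trans ?_
        rw [Real.mul_rpow (by positivity) (by positivity)]
        refine mul_le_mul_of_nonneg_left ?_ (by positivity)
        refine Real.rpow_le_rpow (by positivity) ?_ (by positivity)
        rw [hM2]
        calc X ^ (2 * θ) ≤ X ^ (1 : ℝ) := Real.rpow_le_rpow_of_exponent_le hX1 (by linarith)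
          _ = X := Real.rpow_one X
      have e3 : 1 + (m₁ : ℝ) * m₂ / Real.sqrt W ≤ 1 + (N : ℝ) ^ 2 / Real.sqrt η := by
        have h1 : Real.sqrt η * M ^ 2 ≤ Real.sqrt W := by
          have h2 : M ^ 2 ≤ Real.sqrt X := by
            rw [hM2, Real.sqrt_eq_rpow]
            exact Real.rpow_le_rpow_of_exponent_le hX1 (by linarith)
          calc Real.sqrt η * M ^ 2 ≤ Real.sqrt η * Real.sqrt X :=
                mul_le_mul_of_nonneg_left h2 hsη.le
            _ = Real.sqrt (η * X) := (Real.sqrt_mul hη.le X).symm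
            _ ≤ Real.sqrt W := Real.sqrt_le_sqrt hW1
        have h3 : (m₁ : ℝ) * m₂ / Real.sqrt W ≤ (N : ℝ) ^ 2 / Real.sqrt η := by
          have h4 : 0 < Real.sqrt W := lt_of_lt_of_le (by positivity) h1
          rw [div_le_div_iff₀ h4 hsη]
          calc (m₁ : ℝ) * m₂ * Real.sqrt η ≤ (N : ℝ) ^ 2 * M ^ 2 * Real.sqrt η :=
                mul_le_mul_of_nonneg_right hmm hsη.le
            _ = (N : ℝ) ^ 2 * (Real.sqrt η * M ^ 2) := by ring
            _ ≤ (N : ℝ) ^ 2 * Real.sqrt W := mul_le_mul_of_nonneg_left h1 (by positivity)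
        linarith
      have e4 : X ^ (1 / 2 + γ / 8) * X ^ (γ / 8) = X ^ (1 / 2 + γ / 4) := by
        rw [← Real.rpow_add hX0]
        congr 1
        ring
      calc C₁ * (W : ℝ) ^ (1 / 2 + γ / 8) * ((m₁ : ℝ) * m₂) ^ (γ / 8) *
            (1 + (m₁ : ℝ) * m₂ / Real.sqrt W)
          ≤ C₁ * (K ^ (1 / 2 + γ / 8) * X ^ (1 / 2 + γ / 8)) *
            (((N : ℝ) ^ 2) ^ (γ / 8) * X ^ (γ / 8)) * (1 + (N : ℝ) ^ 2 / Real.sqrt η) := by
              refine mul_le_mul (mul_le_mul (mul_le_mul_of_nonneg_left e1 hC₁.le) e2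
                (by positivity) (by positivity)) e3 (by positivity) (by positivity)
        _ = K' * (X ^ (1 / 2 + γ / 8) * X ^ (γ / 8)) := by
              rw [hK']
              ring
        _ = K' * X ^ (1 / 2 + γ / 4) := by rw [e4]
    refine (Finset.sum_le_card_nsmul _ _ _ hone).trans (le_of_eq ?_)
    rw [Finset.card_range, nsmul_eq_mul]
    ring
  -- Cauchy and Schwarz
  have hcs : ∀ D : ℕ, (∑ m₁ ∈ SD M N, ∑ m₂ ∈ SD M N,
      CD P M N D m₁ * CD P M N D m₂ * (Uf m₁ m₂ D - Uc m₁ m₂ D)) ^ 2 ≤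
      (N * M) ^ 2 * C ^ 4 * ∑ p ∈ SD M N ×ˢ SD M N, (Uf p.1 p.2 D - Uc p.1 p.2 D) ^ 2 := by
    intro D
    rw [← Finset.sum_product' (SD M N) (SD M N)
      (fun m₁ m₂ => CD P M N D m₁ * CD P M N D m₂ * (Uf m₁ m₂ D - Uc m₁ m₂ D))]
    refine sq_sum_le_card_mul_sum_sq.trans ?_
    rw [Finset.card_product, mul_assoc, Finset.mul_sum (a := C ^ 4)]
    refine mul_le_mul ?_ (Finset.sum_le_sum fun p _ => ?_) (Finset.sum_nonneg fun _ _ => sq_nonneg _)
      (by positivity)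
    · push_cast
      rw [sq]
      exact mul_le_mul hS hS (by positivity) (by positivity)
    · rw [mul_pow]
      refine mul_le_mul_of_nonneg_right ?_ (sq_nonneg _)
      have h1 := hCD M D p.1 hM1
      have h2 := hCD M D p.2 hM1
      have h3 : |CD P M N D p.1 * CD P M N D p.2| ≤ C * C := by
        rw [abs_mul]
        exact mul_le_mul h1 h2 (abs_nonneg _) hC.le
      calc (CD P M N D p.1 * CD P M N D p.2) ^ 2 = |CD P M N D p.1 * CD P M N D p.2| ^ 2 :=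
            (sq_abs _).symm
        _ ≤ (C * C) ^ 2 := pow_le_pow_left₀ (abs_nonneg _) h3 2
        _ = C ^ 4 := by ring
  refine (Finset.sum_le_sum fun D _ => hcs D).trans ?_
  rw [← Finset.mul_sum, Finset.sum_comm]
  have htot : ∑ p ∈ SD M N ×ˢ SD M N, ∑ D ∈ (fam X).filter (fun D : ℕ => η * X ≤ D),
      (Uf p.1 p.2 D - Uc p.1 p.2 D) ^ 2 ≤ (N * M) ^ 2 * (J * K' * X ^ (1 / 2 + γ / 4)) := by
    refine (Finset.sum_le_card_nsmul _ _ (J * K' * X ^ (1 / 2 + γ / 4)) fun p hp => ?_).trans ?_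
    · rw [Finset.mem_product] at hp
      exact hpair p.1 hp.1 p.2 hp.2
    · rw [nsmul_eq_mul, Finset.card_product]
      refine mul_le_mul_of_nonneg_right ?_ (by positivity)
      push_cast
      rw [sq]
      exact mul_le_mul hS hS (by positivity) (by positivity)
  calc (N * M) ^ 2 * C ^ 4 * ∑ p ∈ SD M N ×ˢ SD M N,
        ∑ D ∈ (fam X).filter (fun D : ℕ => η * X ≤ D), (Uf p.1 p.2 D - Uc p.1 p.2 D) ^ 2
      ≤ (N * M) ^ 2 * C ^ 4 * ((N * M) ^ 2 * (J * K' * X ^ (1 / 2 + γ / 4))) :=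
        mul_le_mul_of_nonneg_left htot (by positivity)
    _ = T * ((M ^ 2) ^ 2 * X ^ (1 / 2 + γ / 4)) := by
        rw [hT]
        ring
    _ = T * X ^ (1 - γ / 4 - γ / 2) := by
        rw [hM2, ← Real.rpow_natCast (X ^ (2 * θ)) 2, ← Real.rpow_mul hX0.le, ← Real.rpow_add hX0]
        congr 2
        push_cast
        rw [hγ]
        ring
    _ ≤ X ^ (γ / 2) * X ^ (1 - γ / 4 - γ / 2) :=
        mul_le_mul_of_nonneg_right hXT (by positivity)
    _ = X ^ (1 - γ / 4) := by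
        rw [← Real.rpow_add hX0]
        congr 1
        ring

end Pool.Agent.H56.AD
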