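import Pool.Agent.H95.AD.TargetsU

/-!
MP_347b49_nt, board adu_modules, row UMS.
-/

set_option autoImplicit false

open MeasureTheory Set Filter
open scoped Real

namespace Pool.Agent.H56.AD

open Pool.Agent.H31.CN Pool.Agent.H95.AD

/-- the coefficients -/
noncomputable def alph (a e m : ℕ) (i : ℕ × ℕ) (D : ℕ) : ℝ :=
  if 1 ≤ i.1 ∧ 1 ≤ i.2 ∧ a ∣ i.1 then ac e m i.1 i.2 D else 0

theorem ac_zero_left (e m n D : ℕ) : ac e m 0 n D = 0 := by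
  unfold ac
  simp

theorem ac_zero_right (e m A D : ℕ) : ac e m A 0 D = 0 := by
  unfold ac tau
  simp

theorem aa_eq (a e m D : ℕ) (i : ℕ × ℕ) :
    (if a ∣ i.1 then aa e m i.1 i.2 D else 0) = (alph a e m i D : ℂ) * rs i.2 i.1 D := by
  have h0 : aa e m i.1 i.2 D = (ac e m i.1 i.2 D : ℂ) * rs i.2 i.1 D := rfl
  unfold alph
  by_cases h1 : 1 ≤ i.1
  · by_cases h2 : 1 ≤ i.2
    · by_cases h3 : a ∣ i.1
      · rw [if_pos h3, if_pos ⟨h1, h2, h3⟩, h0]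
      · rw [if_neg h3, if_neg fun h => h3 h.2.2, Complex.ofReal_zero, zero_mul]
    · have h4 : i.2 = 0 := by omega
      have h5 : ¬ (1 ≤ i.1 ∧ 1 ≤ i.2 ∧ a ∣ i.1) := fun h => h2 h.2.1
      rw [if_neg h5, Complex.ofReal_zero, zero_mul, h0, h4, ac_zero_right,
        Complex.ofReal_zero, zero_mul, ite_self]
  · have h4 : i.1 = 0 := by omega
    have h5 : ¬ (1 ≤ i.1 ∧ 1 ≤ i.2 ∧ a ∣ i.1) := fun h => h1 h.1
    rw [if_neg h5, Complex.ofReal_zero, zero_mul, h0, h4, ac_zero_left,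
      Complex.ofReal_zero, zero_mul, ite_self]

theorem norm_ee (x : ℝ) : ‖ee x‖ = 1 := by
  unfold ee
  have h : (2 * π * Complex.I * x : ℂ) = ((2 * π * x : ℝ) : ℂ) * Complex.I := by
    push_cast
    ring
  rw [h, Complex.norm_exp_ofReal_mul_I]

theorem norm_rs (n A D : ℕ) : ‖rs n A D‖ ≤ 2 * A := by
  unfold rs
  refine (norm_sum_le _ _).trans ?_
  rw [Finset.sum_congr rfl fun B _ => norm_ee _, Finset.sum_const, nsmul_eq_mul, mul_one]
  have h1 := Finset.card_filter_le (Finset.range (2 * A)) (fun B => 4 * A ∣ B ^ 2 + D)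
  rw [Finset.card_range] at h1
  exact_mod_cast h1

theorem alph_abs (a e m : ℕ) (i : ℕ × ℕ) (D : ℕ) : |alph a e m i D| ≤ |ac e m i.1 i.2 D| := by
  unfold alph
  split_ifs
  · exact le_rfl
  · rw [abs_zero]
    exact abs_nonneg _

theorem alph_sum (hUAB : T_UAB) (a e m j D : ℕ) (he : 1 ≤ e) (hm : 1 ≤ m) (hj : 1 ≤ j) :
    Summable (fun i : ℕ × ℕ => ‖(alph a e m i j : ℂ) * rs i.2 i.1 D‖) := by
  refine Summable.of_nonneg_of_le (fun _ => norm_nonneg _) (fun i => ?_)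
    ((hUAB e m j he hm hj).mul_left 2)
  rw [norm_mul, Complex.norm_real, Real.norm_eq_abs]
  calc |alph a e m i j| * ‖rs i.2 i.1 D‖ ≤ |ac e m i.1 i.2 j| * (2 * i.1) :=
        mul_le_mul (alph_abs a e m i j) (norm_rs _ _ _) (norm_nonneg _) (abs_nonneg _)
    _ = 2 * (|ac e m i.1 i.2 j| * i.1) := by ring

/-- the bound for `K₀` -/
theorem k0_bound (hK0 : T_K0) (A n Y j : ℕ) (hA : 1 ≤ A) (hn : 1 ≤ n) (hY : 1 ≤ Y) (hj : Y ≤ j) :
    |k0 (π * n * Real.sqrt j / A)| ≤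
      2 * (Real.sqrt ((A : ℝ) / (n * Real.sqrt Y)) * Real.exp (-((n : ℝ) * Real.sqrt Y / A))) := by
  have hA0 : (0 : ℝ) < A := by exact_mod_cast hA
  have hn0 : (0 : ℝ) < n := by exact_mod_cast hn
  have hY0 : (0 : ℝ) < Y := by exact_mod_cast hY
  have hsY : 0 < Real.sqrt Y := Real.sqrt_pos.2 hY0
  have hsj : Real.sqrt Y ≤ Real.sqrt j := Real.sqrt_le_sqrt (by exact_mod_cast hj)
  obtain ⟨y, hy⟩ : ∃ y : ℝ, y = (n : ℝ) * Real.sqrt Y / A := ⟨_, rfl⟩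
  have hy0 : 0 < y := by rw [hy]; positivity
  have hxy : y ≤ π * n * Real.sqrt j / A := by
    rw [hy]
    refine div_le_div_of_nonneg_right ?_ hA0.le
    have h1 : (n : ℝ) * Real.sqrt Y ≤ n * Real.sqrt j := mul_le_mul_of_nonneg_left hsj hn0.le
    have h2 : (1 : ℝ) ≤ π := by linarith [Real.pi_gt_three]
    have h3 : (0 : ℝ) ≤ n * Real.sqrt j := by positivity
    calc (n : ℝ) * Real.sqrt Y ≤ n * Real.sqrt j := h1
      _ = 1 * (n * Real.sqrt j) := (one_mul _).symm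
      _ ≤ π * (n * Real.sqrt j) := mul_le_mul_of_nonneg_right h2 h3
      _ = π * n * Real.sqrt j := (mul_assoc _ _ _).symm
  have h1 := (hK0 (π * n * Real.sqrt j / A) (lt_of_lt_of_le hy0 hxy))
  rw [abs_of_pos h1.2.1]
  have h2 := (hK0 y hy0).2.2.2 _ hxy
  refine h2.trans ((hK0 y hy0).2.2.1.trans (le_of_eq ?_))
  have h3 : Real.sqrt ((A : ℝ) / (n * Real.sqrt Y)) = 1 / Real.sqrt y := by
    rw [one_div, ← Real.sqrt_inv, hy, inv_div]
  rw [h3, ← hy]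
  ring

/-- the bound for the differences of `K₀` -/
theorem k0_diff (C : ℝ) (hC : 0 < C) (hK0D : ∀ (x : ℝ) (D : ℕ), 0 < x → 1 ≤ D →
    |k0 (π * x * Real.sqrt ((D : ℝ) + 1)) - k0 (π * x * Real.sqrt D)| ≤
      C / D * (1 / Real.sqrt (x * Real.sqrt D)) * Real.exp (-(3 * x * Real.sqrt D)))
    (A n Y j : ℕ) (hA : 1 ≤ A) (hn : 1 ≤ n) (hY : 1 ≤ Y) (hj : Y ≤ j) :
    |k0 (π * n * Real.sqrt ((j + 1 : ℕ) : ℝ) / A) - k0 (π * n * Real.sqrt j / A)| ≤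
      C / Y * (Real.sqrt ((A : ℝ) / (n * Real.sqrt Y)) *
        Real.exp (-((n : ℝ) * Real.sqrt Y / A))) := by
  have hA0 : (0 : ℝ) < A := by exact_mod_cast hA
  have hn0 : (0 : ℝ) < n := by exact_mod_cast hn
  have hY0 : (0 : ℝ) < Y := by exact_mod_cast hY
  have hjY : (Y : ℝ) ≤ j := by exact_mod_cast hj
  have hsY : 0 < Real.sqrt Y := Real.sqrt_pos.2 hY0
  have hsj : Real.sqrt Y ≤ Real.sqrt j := Real.sqrt_le_sqrt hjY
  obtain ⟨y, hy⟩ : ∃ y : ℝ, y = (n : ℝ) * Real.sqrt Y / A := ⟨_, rfl⟩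
  have hy0 : 0 < y := by rw [hy]; positivity
  have hyx : y ≤ (n : ℝ) / A * Real.sqrt j := by
    rw [hy, div_mul_eq_mul_div]
    exact div_le_div_of_nonneg_right (mul_le_mul_of_nonneg_left hsj hn0.le) hA0.le
  have h1 := hK0D ((n : ℝ) / A) j (by positivity) (hY.trans hj)
  have e1 : π * n * Real.sqrt ((j + 1 : ℕ) : ℝ) / A =
      π * ((n : ℝ) / A) * Real.sqrt ((j : ℝ) + 1) := by
    push_cast
    ring
  have e2 : π * n * Real.sqrt j / A = π * ((n : ℝ) / A) * Real.sqrt j := by ring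
  rw [e1, e2]
  refine h1.trans ?_
  have h3 : Real.sqrt ((A : ℝ) / (n * Real.sqrt Y)) = 1 / Real.sqrt y := by
    rw [one_div, ← Real.sqrt_inv, hy, inv_div]
  rw [h3, ← hy, ← mul_assoc]
  refine mul_le_mul (mul_le_mul ?_ ?_ (by positivity) (by positivity)) ?_ (Real.exp_pos _).le
    (by positivity)
  · exact div_le_div_of_nonneg_left hC.le hY0 hjY
  · refine one_div_le_one_div_of_le (Real.sqrt_pos.2 hy0) (Real.sqrt_le_sqrt hyx)
  · rw [Real.exp_le_exp]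
    have h4 : 3 * ((n : ℝ) / A) * Real.sqrt j = 3 * ((n : ℝ) / A * Real.sqrt j) := by ring
    rw [h4]
    linarith

theorem pf_UMS (hUAA : T_UAA) (hUAB : T_UAB) (hDSM : T_DSM) (hLBD : T_LBD) (hK0 : T_K0)
    (hK0D : T_K0D) (hBVD : T_BVD) : T_UMS := by
  intro ε hε hε1
  obtain ⟨C₀, hC₀, hL⟩ := hLBD ε hε hε1
  obtain ⟨Cv, hCv, hV⟩ := hBVD
  obtain ⟨Ck, hCk, hK⟩ := hK0D
  obtain ⟨K, hKd⟩ : ∃ K : ℝ, K = 4 * Cv * (2 + Ck) := ⟨_, rfl⟩
  have hK00 : 0 < K := by rw [hKd]; positivity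
  refine ⟨4 * C₀ * K ^ 2, by positivity, fun a e m Y ha he hm hY hme => ?_⟩
  have he0 : (0 : ℝ) < e := by exact_mod_cast he
  have hm0 : (0 : ℝ) < m := by exact_mod_cast hm
  have hY0 : (0 : ℝ) < Y := by exact_mod_cast hY
  have hsY : 0 < Real.sqrt Y := Real.sqrt_pos.2 hY0
  -- the two coefficient bounds
  have hcA : ∀ A : ℕ, 1 ≤ A → ∀ D : ℕ, (e : ℝ) ^ 2 * A / ((m : ℝ) * Real.sqrt D) =
      ((e : ℝ) ^ 2 * A / m) / Real.sqrt D := fun A _ D => (div_div _ _ _).symm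
  have hcpos : ∀ A : ℕ, 1 ≤ A → 0 < (e : ℝ) ^ 2 * A / m := by
    intro A hA
    have hA0 : (0 : ℝ) < A := by exact_mod_cast hA
    positivity
  have hexp : ∀ A : ℕ, 1 ≤ A → Real.exp (-(4 * ((e : ℝ) ^ 2 * A / m / Real.sqrt Y))) ≤
      Real.exp (-((e : ℝ) ^ 2 * A / (m * Real.sqrt Y))) := by
    intro A hA
    rw [Real.exp_le_exp, ← div_div]
    have h1 : 0 < (e : ℝ) ^ 2 * A / m / Real.sqrt Y := div_pos (hcpos A hA) hsY
    linarith
  have hCB1 : CB K a e m Y (fun A n => alph a e m (A, n) (2 * Y)) := by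
    refine ⟨fun A n h => if_neg h, fun A n hA hn => ?_⟩
    have hA0 : (0 : ℝ) < A := by exact_mod_cast hA
    have hn0 : (0 : ℝ) < n := by exact_mod_cast hn
    refine (alph_abs a e m (A, n) (2 * Y)).trans ?_
    show |ac e m A n (2 * Y)| ≤ _
    obtain ⟨G, hG⟩ : ∃ G : ℝ, G = Real.sqrt ((A : ℝ) / (n * Real.sqrt Y)) *
      Real.exp (-((n : ℝ) * Real.sqrt Y / A)) := ⟨_, rfl⟩
    have hG0 : 0 ≤ G := by rw [hG]; positivity
    obtain ⟨E, hE⟩ : ∃ E : ℝ, E = Real.exp (-((e : ℝ) ^ 2 * A / (m * Real.sqrt Y))) := ⟨_, rfl⟩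
    have hE0 : 0 ≤ E := by rw [hE]; positivity
    have h1 := k0_bound hK0 A n Y (2 * Y) hA hn hY (by omega)
    have h2 : |Vk ((e : ℝ) ^ 2 * A / ((m : ℝ) * Real.sqrt ((2 * Y : ℕ) : ℝ)))| ≤ Cv * E := by
      rw [hcA A hA (2 * Y), hE]
      exact ((hV _ Y (2 * Y) (hcpos A hA) hY (by omega) le_rfl).1).trans
        (mul_le_mul_of_nonneg_left (hexp A hA) hCv.le)
    rw [← hG] at h1
    have ht : 0 ≤ 4 * tau n / ((e : ℝ) * A) := by
      unfold tau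
      positivity
    unfold ac
    rw [abs_mul, abs_mul, abs_of_nonneg ht]
    calc 4 * tau n / ((e : ℝ) * A) *
          |Vk ((e : ℝ) ^ 2 * A / ((m : ℝ) * Real.sqrt ((2 * Y : ℕ) : ℝ)))| *
          |k0 (π * n * Real.sqrt ((2 * Y : ℕ) : ℝ) / A)|
        ≤ 4 * tau n / ((e : ℝ) * A) * (Cv * E) * (2 * G) :=
          mul_le_mul (mul_le_mul_of_nonneg_left h2 ht) h1 (abs_nonneg _) (by positivity)
      _ ≤ 4 * tau n / ((e : ℝ) * A) * (Cv * E) * ((2 + Ck) * G) := by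
          refine mul_le_mul_of_nonneg_left (mul_le_mul_of_nonneg_right (by linarith) hG0)
            (by positivity)
      _ = K * (tau n / ((e : ℝ) * A)) * G * E := by
          rw [hKd]
          ring
      _ = _ := by
          rw [hG, hE]
          ring
  have hCB2 : ∀ j ∈ Finset.Ico Y (2 * Y), CB (K / Y) a e m Y
      (fun A n => alph a e m (A, n) (j + 1) - alph a e m (A, n) j) := by
    intro j hj
    rw [Finset.mem_Ico] at hj
    refine ⟨fun A n h => ?_, fun A n hA hn => ?_⟩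
    · show alph a e m (A, n) (j + 1) - alph a e m (A, n) j = 0
      unfold alph
      rw [if_neg h, if_neg h, sub_zero]
    have hA0 : (0 : ℝ) < A := by exact_mod_cast hA
    have hn0 : (0 : ℝ) < n := by exact_mod_cast hn
    have h0 : |alph a e m (A, n) (j + 1) - alph a e m (A, n) j| ≤
        |ac e m A n (j + 1) - ac e m A n j| := by
      unfold alph
      split_ifs
      · exact le_rfl
      · rw [sub_zero, abs_zero]
        exact abs_nonneg _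
    refine h0.trans ?_
    obtain ⟨G, hG⟩ : ∃ G : ℝ, G = Real.sqrt ((A : ℝ) / (n * Real.sqrt Y)) *
      Real.exp (-((n : ℝ) * Real.sqrt Y / A)) := ⟨_, rfl⟩
    have hG0 : 0 ≤ G := by rw [hG]; positivity
    obtain ⟨E, hE⟩ : ∃ E : ℝ, E = Real.exp (-((e : ℝ) ^ 2 * A / (m * Real.sqrt Y))) := ⟨_, rfl⟩
    have hE0 : 0 ≤ E := by rw [hE]; positivity
    have h1 := k0_bound hK0 A n Y (j + 1) hA hn hY (by omega)
    have h1' := k0_diff Ck hCk hK A n Y j hA hn hY hj.1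
    have h2 : |Vk ((e : ℝ) ^ 2 * A / ((m : ℝ) * Real.sqrt j))| ≤ Cv * E := by
      rw [hcA A hA j, hE]
      exact ((hV _ Y j (hcpos A hA) hY hj.1 hj.2.le).1).trans
        (mul_le_mul_of_nonneg_left (hexp A hA) hCv.le)
    have h2' : |Vk ((e : ℝ) ^ 2 * A / ((m : ℝ) * Real.sqrt ((j + 1 : ℕ) : ℝ))) -
        Vk ((e : ℝ) ^ 2 * A / ((m : ℝ) * Real.sqrt j))| ≤ Cv / Y * E := by
      rw [hcA A hA j, hcA A hA (j + 1), hE]
      have h3 := (hV _ Y j (hcpos A hA) hY hj.1 hj.2.le).2 hj.2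
      have e1 : ((j + 1 : ℕ) : ℝ) = (j : ℝ) + 1 := by push_cast; ring
      rw [e1]
      exact h3.trans (mul_le_mul_of_nonneg_left (hexp A hA) (by positivity))
    rw [← hG] at h1 h1'
    have ht : 0 ≤ 4 * tau n / ((e : ℝ) * A) := by
      unfold tau
      positivity
    unfold ac
    obtain ⟨V1, hV1⟩ : ∃ V1 : ℝ,
      V1 = Vk ((e : ℝ) ^ 2 * A / ((m : ℝ) * Real.sqrt ((j + 1 : ℕ) : ℝ))) := ⟨_, rfl⟩
    obtain ⟨V0, hV0⟩ : ∃ V0 : ℝ,
      V0 = Vk ((e : ℝ) ^ 2 * A / ((m : ℝ) * Real.sqrt j)) := ⟨_, rfl⟩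
    obtain ⟨k1, hk1⟩ : ∃ k1 : ℝ,
      k1 = k0 (π * n * Real.sqrt ((j + 1 : ℕ) : ℝ) / A) := ⟨_, rfl⟩
    obtain ⟨k2, hk2⟩ : ∃ k2 : ℝ, k2 = k0 (π * n * Real.sqrt j / A) := ⟨_, rfl⟩
    rw [← hV0] at h2
    rw [← hV0, ← hV1] at h2'
    rw [← hk1] at h1
    rw [← hk1, ← hk2] at h1'
    rw [← hV0, ← hV1, ← hk1, ← hk2]
    have e3 : 4 * tau n / ((e : ℝ) * A) * V1 * k1 - 4 * tau n / ((e : ℝ) * A) * V0 * k2 =
        4 * tau n / ((e : ℝ) * A) * ((V1 - V0) * k1 + V0 * (k1 - k2)) := by ring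
    rw [e3, abs_mul, abs_of_nonneg ht]
    have h5 : |(V1 - V0) * k1 + V0 * (k1 - k2)| ≤
        Cv / Y * E * (2 * G) + Cv * E * (Ck / Y * G) := by
      refine (abs_add_le _ _).trans (add_le_add ?_ ?_)
      · rw [abs_mul]
        exact mul_le_mul h2' h1 (abs_nonneg _) (by positivity)
      · rw [abs_mul]
        exact mul_le_mul h2 h1' (abs_nonneg _) (by positivity)
    calc 4 * tau n / ((e : ℝ) * A) * |(V1 - V0) * k1 + V0 * (k1 - k2)|
        ≤ 4 * tau n / ((e : ℝ) * A) * (Cv / Y * E * (2 * G) + Cv * E * (Ck / Y * G)) :=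
          mul_le_mul_of_nonneg_left h5 ht
      _ = K / Y * (tau n / ((e : ℝ) * A)) * G * E := by
          rw [hKd]
          ring
      _ = _ := by
          rw [hG, hE]
          ring
  -- the mean square
  obtain ⟨R, hR⟩ : ∃ R : ℝ, R = (Y : ℝ) ^ (1 / 2 + ε) * (m : ℝ) ^ ε * (e : ℝ) ^ (-(2 + ε)) *
        (1 + a / Real.sqrt Y) := ⟨_, rfl⟩
  have hb1 : ∑ D ∈ Finset.Ico Y (2 * Y), ‖∑' i : ℕ × ℕ, (alph a e m i (2 * Y) : ℂ) *
      rs i.2 i.1 D‖ ^ 2 ≤ C₀ * K ^ 2 * R := by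
    refine (hL a e m Y K _ ha he hm hY hK00.le hme hCB1).trans (le_of_eq ?_)
    rw [hR]
    ring
  have hb2 : ∀ j ∈ Finset.Ico Y (2 * Y), ∑ D ∈ Finset.Ico Y (2 * Y),
      ‖∑' i : ℕ × ℕ, ((alph a e m i (j + 1) - alph a e m i j : ℝ) : ℂ) * rs i.2 i.1 D‖ ^ 2 ≤
      C₀ * (K / Y) ^ 2 * R := by
    intro j hj
    refine (hL a e m Y (K / Y) _ ha he hm hY (by positivity) hme (hCB2 j hj)).trans (le_of_eq ?_)
    rw [hR]
    ring
  have hD := hDSM (ℕ × ℕ) (fun i D => rs i.2 i.1 D) (fun i D => alph a e m i D) Y hY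
    fun j hj D _ => alph_sum hUAB a e m j D he hm (hY.trans (Finset.mem_Icc.1 hj).1)
  have hU : ∀ D ∈ Finset.Ico Y (2 * Y), UU a e m D ^ 2 ≤
      ‖∑' i : ℕ × ℕ, (alph a e m i D : ℂ) * rs i.2 i.1 D‖ ^ 2 := by
    intro D hD
    rw [Finset.mem_Ico] at hD
    rw [(hUAA a e m D ha he hm (hY.trans hD.1)).2, tsum_congr fun i => aa_eq a e m D i, ← sq_abs]
    exact pow_le_pow_left₀ (abs_nonneg _) (Complex.abs_re_le_norm _) 2
  have hsum2 : ∑ j ∈ Finset.Ico Y (2 * Y), ∑ D ∈ Finset.Ico Y (2 * Y),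
      ‖∑' i : ℕ × ℕ, ((alph a e m i (j + 1) - alph a e m i j : ℝ) : ℂ) * rs i.2 i.1 D‖ ^ 2 ≤
      Y * (C₀ * (K / Y) ^ 2 * R) := by
    refine (Finset.sum_le_card_nsmul _ _ _ hb2).trans (le_of_eq ?_)
    rw [Nat.card_Ico, nsmul_eq_mul]
    congr 2
    omega
  calc ∑ D ∈ Finset.Ico Y (2 * Y), UU a e m D ^ 2
      ≤ ∑ D ∈ Finset.Ico Y (2 * Y), ‖∑' i : ℕ × ℕ, (alph a e m i D : ℂ) * rs i.2 i.1 D‖ ^ 2 :=
        Finset.sum_le_sum hU
    _ ≤ _ := hD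
    _ ≤ 2 * (C₀ * K ^ 2 * R) + 2 * Y * (Y * (C₀ * (K / Y) ^ 2 * R)) :=
        add_le_add (mul_le_mul_of_nonneg_left hb1 (by norm_num))
          (mul_le_mul_of_nonneg_left hsum2 (by positivity))
    _ = 4 * C₀ * K ^ 2 * R := by
        field_simp
        ring
    _ = _ := by
        rw [hR]
        ring

end Pool.Agent.H56.AD
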